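import Pool.Agent.R558.GabMain

/-!
# MP_aa6dd4_lc, Q2: support-constrained Gabidulin codes exist over `𝔽_{q^m}` for every `m ≥ n`

The existence of a support-constrained Gabidulin code over a large extension field (the
GM-MDS theorem for linearized polynomials) is proved by induction in `Pool.Agent.R558.Induct`.
The bound `m ≥ n` comes from the dual code: its rows are the circuits of an
`(n - k) × n` Moore matrix, whose entries have degree at most `q^(n-k) - 1` in each coordinate.
-/

namespace Pool.Agent.Results.MP_aa6dd4_lc.GabidulinSupport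

/-- Condition (∗): `|⋂_{i ∈ Ω} Z_i| + |Ω| ≤ k` for every nonempty `Ω ⊆ {1, …, k}`. -/
def Condition {n k : ℕ} (Z : Fin k → Finset (Fin n)) : Prop :=
  ∀ Ω : Finset (Fin k), Ω.Nonempty →
    (Finset.univ.filter fun j : Fin n => ∀ i ∈ Ω, j ∈ Z i).card + Ω.card ≤ k

/-- The set of words `(f(g_1), …, f(g_n))` with `f = ∑_{t < k} f_t x^{q^t}`, `f_t ∈ K`. It is an
`[n, k]` Gabidulin code over `K = 𝔽_{q^m}` when `g_1, …, g_n` are linearly independent over
`𝔽_q`. -/
def gabidulinCode {K : Type*} [Field K] {n : ℕ} (q k : ℕ) (g : Fin n → K) : Set (Fin n → K) :=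
  {w | ∃ f : Fin k → K, ∀ j, w j = ∑ t : Fin k, f t * g j ^ (q ^ (t : ℕ))}

/-- `G` is a generator matrix of `C`: its rows form a basis of `C`. -/
def IsGeneratorMatrix {K : Type*} [Field K] {n k : ℕ} (G : Fin k → Fin n → K)
    (C : Set (Fin n → K)) : Prop :=
  LinearIndependent K G ∧ (Submodule.span K (Set.range G) : Set (Fin n → K)) = C

/-- `G` fulfils the support constraint: `G_{ij} = 0` for all `i` and all `j ∈ Z_i`. -/
def FulfilsSupport {K : Type*} [Field K] {n k : ℕ} (Z : Fin k → Finset (Fin n))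
    (G : Fin k → Fin n → K) : Prop :=
  ∀ i, ∀ j ∈ Z i, G i j = 0

/-- Let `1 ≤ k ≤ n ≤ m`, let `Z_1, …, Z_k ⊆ {1, …, n}` satisfy (∗), and let `F ⊆ K` be finite fields
with `q` and `q^m` elements. Then some `[n, k]` Gabidulin code over `K` has a generator matrix
fulfilling the support constraint. -/
theorem result (q m n k : ℕ) (hk : 1 ≤ k) (hkn : k ≤ n) (hnm : n ≤ m)
    (Z : Fin k → Finset (Fin n)) (hZ : Condition Z)
    (F K : Type) [Field F] [Fintype F] [Field K] [Fintype K] [Algebra F K]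
    (hF : Fintype.card F = q) (hK : Fintype.card K = q ^ m) :
    ∃ g : Fin n → K, LinearIndependent F g ∧
      ∃ G : Fin k → Fin n → K, IsGeneratorMatrix G (gabidulinCode q k g) ∧ FulfilsSupport Z G := by
  subst hF
  have hstar : Pool.Agent.R558.Star k Z := by
    intro Ω hΩ
    have h := hZ Ω hΩ
    unfold Pool.Agent.R558.cap
    convert h
  obtain ⟨Z', h1, h2, h3⟩ := Pool.Agent.R558.Star.extend (by simpa using hkn) _ Z hstar rfl
  obtain ⟨r, hr⟩ : ∃ r, k + r = n := ⟨n - k, by omega⟩
  have hcard : Fintype.card F ^ n ≤ Fintype.card K := by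
    rw [hK]
    exact Nat.pow_le_pow_right Fintype.card_pos hnm
  obtain ⟨g, hg, G, hG1, hG2, hG3⟩ := Pool.Agent.R558.main hk hr hcard h2 h3
  refine ⟨g, hg, G, ⟨hG1, ?_⟩, fun i j hj => hG3 i j (h1 i hj)⟩
  rw [hG2]
  rfl

end Pool.Agent.Results.MP_aa6dd4_lc.GabidulinSupport
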